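import Pool.Agent.Helper50.ET.VCount
import Pool.Agent.Helper27.T4.Phase

/-!
# T4' (MP_12a1af): counting of digits and growth of `Nj`
-/

namespace Pool.Agent.Helper30.ET

open Finset Pool.Agent.Helper27.T4 Pool.Agent.Helper5.ET Pool.Agent.Helper50.ET

theorem cnt_sum_univ (y : ℕ) : ∑ f : Fin 3, cnt f y = y := by
  have h := Finset.card_eq_sum_card_fiberwise (s := range y) (t := (univ : Finset (Fin 3)))
    (f := own) (fun _ _ => Finset.mem_coe.2 (Finset.mem_univ _))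
  rw [card_range] at h
  unfold cnt
  exact h.symm

/-- the digits below `y` are distributed over the three families -/
theorem cnt_sum (y : ℕ) : cnt 0 y + cnt 1 y + cnt 2 y = y := by
  have h := cnt_sum_univ y
  rw [Fin.sum_univ_three] at h
  exact h

theorem cnt_le_self (f : Fin 3) (y : ℕ) : cnt f y ≤ y := by
  unfold cnt
  exact (card_filter_le _ _).trans (by rw [card_range])

theorem cnt_zero (f : Fin 3) : cnt f 0 = 0 := by simp [cnt]

/-- a family which owns no position of `[y, z)` does not change -/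
theorem cnt_eq (f : Fin 3) (y z : ℕ) (h : y ≤ z) (h1 : ∀ t, y ≤ t → t < z → own t ≠ f) :
    cnt f z = cnt f y := cnt_eq_of f h h1

theorem cnt_add (f : Fin 3) (y z : ℕ) (h : y ≤ z) (h1 : ∀ t, y ≤ t → t < z → own t = f) :
    cnt f z = cnt f y + (z - y) := cnt_add_of f h h1

theorem cnt_le_add (f : Fin 3) {y z : ℕ} (h : y ≤ z) : cnt f z ≤ cnt f y + (z - y) := by
  rw [cnt_sub f h]
  exact Nat.add_le_add_left ((card_filter_le _ _).trans (by rw [Nat.card_Ico])) _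

/-- the total growth of the families over `[y, z)` is `z - y` -/
theorem cnt_growth (y z : ℕ) (h : y ≤ z) : ∑ f : Fin 3, (cnt f z - cnt f y) = z - y := by
  have h1 := cnt_sum_univ y
  have h2 := cnt_sum_univ z
  have h3 : ∑ f : Fin 3, cnt f z = ∑ f : Fin 3, cnt f y + ∑ f : Fin 3, (cnt f z - cnt f y) := by
    rw [← Finset.sum_add_distrib]
    exact Finset.sum_congr rfl (fun f _ => (Nat.add_sub_cancel' (cnt_mono f h)).symm)
  omega

theorem pr_pos (f : Fin 3) : 0 < pr f := (pr_prime f).pos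

theorem one_lt_pr (f : Fin 3) : 1 < pr f := (pr_prime f).one_lt

theorem pr_ge_real (f : Fin 3) : (1000003 : ℝ) ≤ pr f := by exact_mod_cast pr_ge f

theorem pr_le_real (f : Fin 3) : (pr f : ℝ) ≤ 1000037 := by exact_mod_cast pr_le f

theorem log_pr_ge (f : Fin 3) : Real.log 1000003 ≤ Real.log (pr f) :=
  Real.log_le_log (by norm_num) (pr_ge_real f)

theorem log_pr_le (f : Fin 3) : Real.log (pr f) ≤ Real.log 1000037 :=
  Real.log_le_log (by exact_mod_cast pr_pos f) (pr_le_real f)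

theorem Nj_eq_prod_fam (y : ℕ) : Nj y = ∏ f : Fin 3, pr f ^ cnt f y := rfl

theorem Nj_eq_three (y : ℕ) : Nj y = pr 0 ^ cnt 0 y * pr 1 ^ cnt 1 y * pr 2 ^ cnt 2 y := by
  rw [Nj_eq_prod_fam, Fin.prod_univ_three]

theorem Nj_zero : Nj 0 = 1 := by
  rw [Nj_eq_prod_fam]
  simp [cnt_zero]

/-- `Nj z` is the product of the digit bases below `z` -/
theorem Nj_eq_prod (z : ℕ) : Nj z = ∏ t ∈ range z, pr (own t) := by
  induction z with
  | zero => rw [Nj_zero, range_zero, prod_empty]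
  | succ z ih => rw [Nj_succ, ih, prod_range_succ]

theorem Nj_eq_mul {y z : ℕ} (h : y ≤ z) : Nj z = Nj y * ∏ t ∈ Ico y z, pr (own t) := by
  rw [Nj_eq_prod, Nj_eq_prod, prod_range_mul_prod_Ico _ h]

theorem Nj_div {y z : ℕ} (h : y ≤ z) : Nj z / Nj y = ∏ t ∈ Ico y z, pr (own t) := by
  rw [Nj_eq_mul h, Nat.mul_div_cancel_left _ (Nj_pos y)]

/-- quotient by families -/
theorem Nj_div_fam {y z : ℕ} (h : y ≤ z) :
    Nj z / Nj y = ∏ f : Fin 3, pr f ^ (cnt f z - cnt f y) := by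
  have h1 : Nj z = Nj y * ∏ f : Fin 3, pr f ^ (cnt f z - cnt f y) := by
    rw [Nj_eq_prod_fam, Nj_eq_prod_fam, ← Finset.prod_mul_distrib]
    refine Finset.prod_congr rfl (fun f _ => ?_)
    rw [← pow_add, Nat.add_sub_cancel' (cnt_mono f h)]
  rw [h1, Nat.mul_div_cancel_left _ (Nj_pos y)]

theorem Nj_div_mul {y z : ℕ} (h : y ≤ z) : Nj z / Nj y * Nj y = Nj z :=
  Nat.div_mul_cancel (Nj_dvd h)

theorem Nj_div_pos {y z : ℕ} (h : y ≤ z) : 0 < Nj z / Nj y :=
  Nat.div_pos (Nj_mono h) (Nj_pos y)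

theorem Nj_div_lower {y z : ℕ} (h : y ≤ z) : 1000003 ^ (z - y) ≤ Nj z / Nj y := by
  rw [Nj_div h]
  have h1 : ∏ _t ∈ Ico y z, 1000003 ≤ ∏ t ∈ Ico y z, pr (own t) :=
    Finset.prod_le_prod' (fun t _ => pr_ge (own t))
  rwa [prod_const, Nat.card_Ico] at h1

theorem Nj_div_upper {y z : ℕ} (h : y ≤ z) : Nj z / Nj y ≤ 1000037 ^ (z - y) := by
  rw [Nj_div h]
  have h1 : ∏ t ∈ Ico y z, pr (own t) ≤ ∏ _t ∈ Ico y z, 1000037 :=
    Finset.prod_le_prod' (fun t _ => pr_le (own t))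
  rwa [prod_const, Nat.card_Ico] at h1

theorem Nj_lower {y z : ℕ} (h : y ≤ z) : Nj y * 1000003 ^ (z - y) ≤ Nj z := by
  have h1 := Nat.mul_le_mul_right (Nj y) (Nj_div_lower h)
  rw [Nj_div_mul h] at h1
  rwa [mul_comm]

theorem Nj_upper {y z : ℕ} (h : y ≤ z) : Nj z ≤ Nj y * 1000037 ^ (z - y) := by
  have h1 := Nat.mul_le_mul_right (Nj y) (Nj_div_upper h)
  rw [Nj_div_mul h] at h1
  rwa [mul_comm]

theorem Nj_strictMono : StrictMono Nj := by
  refine strictMono_nat_of_lt_succ (fun y => ?_)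
  rw [Nj_succ]
  exact lt_mul_of_one_lt_right (Nj_pos y) (one_lt_pr _)

theorem Nj_le_iff {y z : ℕ} : Nj y ≤ Nj z ↔ y ≤ z := Nj_strictMono.le_iff_le

theorem Nj_lt_iff {y z : ℕ} : Nj y < Nj z ↔ y < z := Nj_strictMono.lt_iff_lt

theorem pow_le_Nj (y : ℕ) : 1000003 ^ y ≤ Nj y := by
  have h := Nj_lower (Nat.zero_le y)
  rwa [Nj_zero, one_mul, Nat.sub_zero] at h

theorem Nj_le_pow (y : ℕ) : Nj y ≤ 1000037 ^ y := by
  have h := Nj_upper (Nat.zero_le y)
  rwa [Nj_zero, one_mul, Nat.sub_zero] at h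

theorem lt_Nj (y : ℕ) : y < Nj y :=
  (Nat.lt_pow_self (by norm_num : 1 < 1000003)).trans_le (pow_le_Nj y)

/-! ## real forms -/

theorem Nj_pos_real (y : ℕ) : (0 : ℝ) < Nj y := by exact_mod_cast Nj_pos y

theorem cast_Nj_div {y z : ℕ} (h : y ≤ z) : ((Nj z / Nj y : ℕ) : ℝ) = (Nj z : ℝ) / Nj y :=
  Nat.cast_div (Nj_dvd h) (Nj_pos_real y).ne'

theorem div_lower {y z : ℕ} (h : y ≤ z) : (1000003 : ℝ) ^ (z - y) ≤ (Nj z : ℝ) / Nj y := by
  rw [← cast_Nj_div h]
  exact_mod_cast Nj_div_lower h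

theorem div_upper {y z : ℕ} (h : y ≤ z) : (Nj z : ℝ) / Nj y ≤ (1000037 : ℝ) ^ (z - y) := by
  rw [← cast_Nj_div h]
  exact_mod_cast Nj_div_upper h

/-- small quotient: `N_y / N_z <= 1000003 ^ (-(z - y))` -/
theorem inv_upper {y z : ℕ} (h : y ≤ z) : (Nj y : ℝ) / Nj z ≤ ((1000003 : ℝ) ^ (z - y))⁻¹ := by
  rw [← inv_div]
  exact inv_anti₀ (by positivity) (div_lower h)

theorem inv_lower {y z : ℕ} (h : y ≤ z) : ((1000037 : ℝ) ^ (z - y))⁻¹ ≤ (Nj y : ℝ) / Nj z := by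
  rw [← inv_div (Nj z : ℝ)]
  exact inv_anti₀ (div_pos (Nj_pos_real z) (Nj_pos_real y)) (div_upper h)

/-- for natural numbers `d` with `y + d <= z`: `N_y / N_z <= 1000003 ^ (-d)` -/
theorem inv_upper' {y z d : ℕ} (h : y + d ≤ z) : (Nj y : ℝ) / Nj z ≤ ((1000003 : ℝ) ^ d)⁻¹ := by
  refine (inv_upper (by omega : y ≤ z)).trans (inv_anti₀ (by positivity) ?_)
  exact pow_le_pow_right₀ (by norm_num) (by omega)

theorem log_Nj (y : ℕ) : Real.log (Nj y) = ∑ f : Fin 3, (cnt f y : ℝ) * Real.log (pr f) := by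
  rw [Nj_eq_prod_fam]
  push_cast
  rw [Real.log_prod (fun f _ => pow_ne_zero _ (by exact_mod_cast (pr_pos f).ne'))]
  exact Finset.sum_congr rfl (fun f _ => Real.log_pow _ _)

theorem log_sub_lower {y z : ℕ} (h : y ≤ z) :
    ((z : ℝ) - y) * Real.log 1000003 ≤ Real.log (Nj z) - Real.log (Nj y) := by
  rw [← Real.log_div (Nj_pos_real z).ne' (Nj_pos_real y).ne', ← Nat.cast_sub h, ← Real.log_pow]
  exact Real.log_le_log (by positivity) (div_lower h)

theorem log_sub_upper {y z : ℕ} (h : y ≤ z) :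
    Real.log (Nj z) - Real.log (Nj y) ≤ ((z : ℝ) - y) * Real.log 1000037 := by
  rw [← Real.log_div (Nj_pos_real z).ne' (Nj_pos_real y).ne', ← Nat.cast_sub h, ← Real.log_pow]
  exact Real.log_le_log (div_pos (Nj_pos_real z) (Nj_pos_real y)) (div_upper h)

theorem log_Nj_lower (y : ℕ) : (y : ℝ) * Real.log 1000003 ≤ Real.log (Nj y) := by
  rw [← Real.log_pow]
  exact Real.log_le_log (by positivity) (by exact_mod_cast pow_le_Nj y)

theorem log_Nj_upper (y : ℕ) : Real.log (Nj y) ≤ (y : ℝ) * Real.log 1000037 := by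
  rw [← Real.log_pow]
  exact Real.log_le_log (Nj_pos_real y) (by exact_mod_cast Nj_le_pow y)

theorem log_base_lower : (13 : ℝ) < Real.log 1000003 := by
  rw [Real.lt_log_iff_exp_lt (by norm_num)]
  have h1 : Real.exp 13 = Real.exp 1 ^ 13 := by rw [← Real.exp_nat_mul]; norm_num
  rw [h1]
  have h2 := Real.exp_one_lt_d9
  calc Real.exp 1 ^ 13 < 2.7182818286 ^ 13 := by
        exact pow_lt_pow_left₀ h2 (Real.exp_pos 1).le (by norm_num)
    _ < 1000003 := by norm_num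

theorem log_base_upper : Real.log 1000037 < 14 := by
  rw [Real.log_lt_iff_lt_exp (by norm_num)]
  have h1 : Real.exp 14 = Real.exp 1 ^ 14 := by rw [← Real.exp_nat_mul]; norm_num
  rw [h1]
  have h2 := Real.exp_one_gt_d9
  calc (1000037 : ℝ) < 2.7182818283 ^ 14 := by norm_num
    _ < Real.exp 1 ^ 14 := pow_lt_pow_left₀ h2 (by norm_num) (by norm_num)

theorem log_pr_gt (f : Fin 3) : (13 : ℝ) < Real.log (pr f) := log_base_lower.trans_le (log_pr_ge f)

theorem log_pr_lt (f : Fin 3) : Real.log (pr f) < 14 := (log_pr_le f).trans_lt log_base_upper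

/-- the bases are nearly equal: `log 1000037 <= (1 + 1/300000) log 1000003` -/
theorem log_bases_near : Real.log 1000037 ≤ (1 + 1 / 300000) * Real.log 1000003 := by
  have h1 : Real.log 1000037 = Real.log 1000003 + Real.log (1000037 / 1000003) := by
    rw [← Real.log_mul (by norm_num) (by norm_num)]
    norm_num
  have h2 : Real.log (1000037 / 1000003) ≤ 1000037 / 1000003 - 1 :=
    Real.log_le_sub_one_of_pos (by norm_num)
  have h3 := log_base_lower
  rw [h1]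
  have h4 : (1000037 / 1000003 - 1 : ℝ) ≤ 1 / 300000 * 13 := by norm_num
  linarith

/-! ## single families -/

theorem fam_pow_mul (f : Fin 3) {y z : ℕ} (h : y ≤ z) :
    pr f ^ cnt f z = pr f ^ cnt f y * pr f ^ (cnt f z - cnt f y) := by
  rw [← pow_add, Nat.add_sub_cancel' (cnt_mono f h)]

theorem fam_pow_dvd (f : Fin 3) {y z : ℕ} (h : y ≤ z) : pr f ^ cnt f y ∣ pr f ^ cnt f z :=
  pow_dvd_pow _ (cnt_mono f h)

theorem fam_pow_pos (f : Fin 3) (y : ℕ) : 0 < pr f ^ cnt f y := pow_pos (pr_pos f) _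

theorem fam_pow_dvd_Nj (f : Fin 3) (y : ℕ) : pr f ^ cnt f y ∣ Nj y :=
  Finset.dvd_prod_of_mem (fun g => pr g ^ cnt g y) (Finset.mem_univ f)

theorem fam_pow_le_Nj (f : Fin 3) (y : ℕ) : pr f ^ cnt f y ≤ Nj y :=
  Nat.le_of_dvd (Nj_pos y) (fam_pow_dvd_Nj f y)

/-- within one era `Nj` changes by powers of the base of the owner -/
theorem Nj_same_era {l l' : ℕ} (h : l' ≤ l) (he : era l' = era l) :
    Nj l = Nj l' * pr (fam (era l)) ^ (l - l') := by
  rw [Nj_eq_mul h]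
  congr 1
  rw [Finset.prod_congr rfl (g := fun _ => pr (fam (era l))), prod_const, Nat.card_Ico]
  intro t ht
  rw [mem_Ico] at ht
  rw [own_between he ht.1 ht.2.le]

theorem Nj_node (c : ℕ) : Nj (tau (c + 1)) = Nj (tau c) * pr (own (tau c)) ^ gap (tau c) := by
  have h : tau c ≤ tau (c + 1) := (tau_mono (Nat.lt_succ_self c)).le
  rw [Nj_eq_mul h]
  congr 1
  rw [Finset.prod_congr rfl (g := fun _ => pr (own (tau c))), prod_const, Nat.card_Ico]
  · congr 1
    rw [Pool.Agent.Helper50.ET.tau_succ]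
    omega
  intro t ht
  rw [mem_Ico] at ht
  rw [own_node c t ht.1 ht.2]

end Pool.Agent.Helper30.ET
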